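import Pool.Agent.P.MP_56b3f5_al.Defs

set_option autoImplicit false
set_option linter.unusedSectionVars false

open scoped TensorProduct

namespace Pool.Agent.P.MP_56b3f5_al

section Alg
variable {A : Type} [Ring A] [Algebra ℂ A]

/-- the two cubic relations which characterise the odd generators -/
def OspPair (P M : A) : Prop :=
  (4 : ℂ) • (M * P * P - P * P * M) = P ∧ (4 : ℂ) • (M * M * P - P * M * M) = M

def Anti (a b : A) : Prop := a * b = -(b * a)

noncomputable def sc (P M : A) : A := P * M - M * P + (1 / 8 : ℂ) • 1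

theorem cas_eq (P M R : A) : cas P M R = sc P M * R := by
  simp only [cas, sc, add_mul, smul_mul_assoc, one_mul]

theorem Anti.symm {a b : A} (h : Anti a b) : Anti b a := by
  unfold Anti at *
  rw [h, neg_neg]

theorem OspPair.add {P1 M1 P2 M2 : A} (h1 : OspPair P1 M1) (h2 : OspPair P2 M2)
    (pp : Anti P1 P2) (pm : Anti P1 M2) (mp : Anti M1 P2) (mm : Anti M1 M2) :
    OspPair (P1 + P2) (M1 + M2) := by
  obtain ⟨a1, b1⟩ := h1
  obtain ⟨a2, b2⟩ := h2
  unfold Anti at pp pm mp mm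
  have hP : (P1 + P2) * (P1 + P2) = P1 * P1 + P2 * P2 := by
    rw [add_mul, mul_add, mul_add, pp]; abel
  have hM : (M1 + M2) * (M1 + M2) = M1 * M1 + M2 * M2 := by
    rw [add_mul, mul_add, mul_add, mm]; abel
  have c1 : M1 * (P2 * P2) = P2 * P2 * M1 := by
    rw [← mul_assoc, mp, neg_mul, mul_assoc P2 M1 P2, mp]; noncomm_ring
  have c2 : M2 * (P1 * P1) = P1 * P1 * M2 := by
    rw [mul_assoc P1 P1 M2, pm, mul_neg, ← mul_assoc P1 M2 P1, pm]; noncomm_ring
  have c3 : M2 * M2 * P1 = P1 * (M2 * M2) := by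
    rw [← mul_assoc P1, pm, neg_mul, mul_assoc M2 P1 M2, pm]; noncomm_ring
  have c4 : M1 * M1 * P2 = P2 * (M1 * M1) := by
    rw [mul_assoc M1 M1 P2, mp, mul_neg, ← mul_assoc M1 P2 M1, mp]; noncomm_ring
  constructor
  · have : (M1 + M2) * (P1 + P2) * (P1 + P2) - (P1 + P2) * (P1 + P2) * (M1 + M2)
        = (M1 * P1 * P1 - P1 * P1 * M1) + (M2 * P2 * P2 - P2 * P2 * M2) := by
      rw [mul_assoc (M1 + M2), hP]
      simp only [add_mul, mul_add]
      rw [c1, c2]; noncomm_ring
    rw [this, smul_add, a1, a2]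
  · have : (M1 + M2) * (M1 + M2) * (P1 + P2) - (P1 + P2) * (M1 + M2) * (M1 + M2)
        = (M1 * M1 * P1 - P1 * M1 * M1) + (M2 * M2 * P2 - P2 * M2 * M2) := by
      rw [mul_assoc (P1 + P2), hM]
      simp only [add_mul, mul_add]
      rw [c3, c4]; noncomm_ring
    rw [this, smul_add, b1, b2]

theorem OspPair.sc_anti_P {P M : A} (h : OspPair P M) : sc P M * P = -(P * sc P M) := by
  obtain ⟨a, -⟩ := h
  unfold sc
  linear_combination (norm := (simp only [mul_add, add_mul, sub_mul, mul_sub, smul_mul_assoc,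
    mul_smul_comm, mul_assoc, mul_one, one_mul]; module)) (-1 / 4 : ℂ) • a

theorem OspPair.sc_anti_M {P M : A} (h : OspPair P M) : sc P M * M = -(M * sc P M) := by
  obtain ⟨-, b⟩ := h
  unfold sc
  linear_combination (norm := (simp only [mul_add, add_mul, sub_mul, mul_sub, smul_mul_assoc,
    mul_smul_comm, mul_assoc, mul_one, one_mul]; module)) (-1 / 4 : ℂ) • b

/-- the quadratic form of the square of the sCasimir -/
theorem OspPair.sc_sq {P M : A} (h : OspPair P M) :
    sc P M * sc P M = (P * M + M * P) * (P * M + M * P) + (1 / 2 : ℂ) • (P * M + M * P)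
      - (4 : ℂ) • ((M * M) * (P * P)) - (1 / 4 : ℂ) • (P * M - M * P) + (1 / 64 : ℂ) • 1 := by
  obtain ⟨a, b⟩ := h
  unfold sc
  linear_combination (norm := (simp only [mul_add, add_mul, sub_mul, mul_sub, smul_mul_assoc,
    mul_smul_comm, mul_assoc, mul_one, one_mul, smul_sub, smul_add]; module))
    (1 / 2 : ℂ) • (b * P) + (1 / 2 : ℂ) • (M * a)

theorem cas_sq {P M R : A} (hR : R * R = 1) (rp : Anti R P) (rm : Anti R M) :
    cas P M R * cas P M R = sc P M * sc P M := by
  unfold Anti at rp rm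
  have h1 : R * sc P M = sc P M * R := by
    unfold sc
    have e1 : R * (P * M) = P * M * R := by
      rw [← mul_assoc, rp, neg_mul, mul_assoc P R M, rm]; noncomm_ring
    have e2 : R * (M * P) = M * P * R := by
      rw [← mul_assoc, rm, neg_mul, mul_assoc M R P, rp]; noncomm_ring
    simp only [mul_add, add_mul, sub_mul, mul_sub, smul_mul_assoc, mul_smul_comm, mul_one, one_mul,
      e1, e2]
  rw [cas_eq, mul_assoc, ← mul_assoc R, h1, mul_assoc, hR, mul_one]

theorem cas_comm_M {P M R : A} (h : OspPair P M) (rm : Anti R M) :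
    cas P M R * M = M * cas P M R := by
  unfold Anti at rm
  rw [cas_eq, mul_assoc, rm, mul_neg, ← mul_assoc, h.sc_anti_M]; noncomm_ring

theorem cas_comm_P {P M R : A} (h : OspPair P M) (rp : Anti R P) :
    cas P M R * P = P * cas P M R := by
  unfold Anti at rp
  rw [cas_eq, mul_assoc, rp, mul_neg, ← mul_assoc, h.sc_anti_P]; noncomm_ring

theorem cas_comm_R {P M R : A} (rp : Anti R P) (rm : Anti R M) :
    cas P M R * R = R * cas P M R := by
  unfold Anti at rp rm
  unfold cas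
  have e1 : R * (P * M) = P * M * R := by
    rw [← mul_assoc, rp, neg_mul, mul_assoc P R M, rm]; noncomm_ring
  have e2 : R * (M * P) = M * P * R := by
    rw [← mul_assoc, rm, neg_mul, mul_assoc M R P, rp]; noncomm_ring
  simp only [mul_add, add_mul, smul_mul_assoc, mul_smul_comm]
  rw [← mul_assoc R, mul_sub R, e1, e2, ← sub_mul]

theorem Anti.add_left {a b c : A} (h1 : Anti a c) (h2 : Anti b c) : Anti (a + b) c := by
  unfold Anti at *
  rw [add_mul, mul_add, h1, h2, neg_add]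

theorem Anti.add_right {a b c : A} (h1 : Anti c a) (h2 : Anti c b) : Anti c (a + b) :=
  (Anti.add_left h1.symm h2.symm).symm

theorem anti_sum_acomm {P1 M1 P2 M2 : A} (pm : Anti P1 M2) (mp : Anti M1 P2) :
    (P1 + P2) * (M1 + M2) + (M1 + M2) * (P1 + P2)
      = (P1 * M1 + M1 * P1) + (P2 * M2 + M2 * P2) := by
  unfold Anti at pm mp
  simp only [mul_add, add_mul]
  rw [pm, mp]; abel

theorem anti_sum_sq {P1 P2 : A} (pp : Anti P1 P2) :
    (P1 + P2) * (P1 + P2) = P1 * P1 + P2 * P2 := by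
  unfold Anti at pp
  rw [add_mul, mul_add, mul_add, pp]; abel

/-- The value of the Bannai-Ito Casimir element. -/
theorem casimir_identity {P1 M1 P2 M2 P3 M3 : A} (h1 : OspPair P1 M1) (h2 : OspPair P2 M2)
    (h3 : OspPair P3 M3)
    (pp12 : Anti P1 P2) (pm12 : Anti P1 M2) (mp12 : Anti M1 P2) (mm12 : Anti M1 M2)
    (pp13 : Anti P1 P3) (pm13 : Anti P1 M3) (mp13 : Anti M1 P3) (mm13 : Anti M1 M3)
    (pp23 : Anti P2 P3) (pm23 : Anti P2 M3) (mp23 : Anti M2 P3) (mm23 : Anti M2 M3) :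
    sc (P1 + P2) (M1 + M2) * sc (P1 + P2) (M1 + M2)
      + sc (P2 + P3) (M2 + M3) * sc (P2 + P3) (M2 + M3)
      + sc (P1 + P3) (M1 + M3) * sc (P1 + P3) (M1 + M3) + (1 / 64 : ℂ) • 1
    = sc P1 M1 * sc P1 M1 + sc P2 M2 * sc P2 M2 + sc P3 M3 * sc P3 M3
      + sc (P1 + P2 + P3) (M1 + M2 + M3) * sc (P1 + P2 + P3) (M1 + M2 + M3) := by
  have h12 := h1.add h2 pp12 pm12 mp12 mm12
  have h13 := h1.add h3 pp13 pm13 mp13 mm13
  have h23 := h2.add h3 pp23 pm23 mp23 mm23
  have h123 := h12.add h3 (pp13.add_left pp23) (pm13.add_left pm23) (mp13.add_left mp23)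
    (mm13.add_left mm23)
  rw [h1.sc_sq, h2.sc_sq, h3.sc_sq, h12.sc_sq, h13.sc_sq, h23.sc_sq, h123.sc_sq,
    anti_sum_acomm (pm13.add_left pm23) (mp13.add_left mp23),
    anti_sum_sq (pp13.add_left pp23), anti_sum_sq (mm13.add_left mm23),
    anti_sum_acomm pm12 mp12, anti_sum_acomm pm13 mp13, anti_sum_acomm pm23 mp23,
    anti_sum_sq pp12, anti_sum_sq pp13, anti_sum_sq pp23,
    anti_sum_sq mm12, anti_sum_sq mm13, anti_sum_sq mm23]
  generalize P1 * M1 + M1 * P1 = a1
  generalize P2 * M2 + M2 * P2 = a2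
  generalize P3 * M3 + M3 * P3 = a3
  generalize P1 * P1 = e1
  generalize P2 * P2 = e2
  generalize P3 * P3 = e3
  generalize M1 * M1 = f1
  generalize M2 * M2 = f2
  generalize M3 * M3 = f3
  simp only [mul_add, add_mul]
  module

end Alg

end Pool.Agent.P.MP_56b3f5_al
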