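import Mathlib

set_option autoImplicit false

open scoped TensorProduct

namespace Pool.Agent.P.MP_56b3f5_al

/-- The relations of `osp(1|2)` for `H, E⁺, E⁻, F⁺, F⁻` in an associative algebra. -/
def OspRel {A : Type} [Ring A] [Algebra ℂ A] (H Ep Em Fp Fm : A) : Prop :=
  H * Ep - Ep * H = Ep ∧ H * Em - Em * H = -Em ∧ Ep * Em - Em * Ep = (2 : ℂ) • H ∧
    H * Fp - Fp * H = (1 / 2 : ℂ) • Fp ∧ H * Fm - Fm * H = -((1 / 2 : ℂ) • Fm) ∧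
    Fp * Fm + Fm * Fp = (1 / 2 : ℂ) • H ∧
    Ep * Fm - Fm * Ep = -Fp ∧ Em * Fp - Fp * Em = -Fm ∧
    Fp * Fp + Fp * Fp = (1 / 2 : ℂ) • Ep ∧ Fm * Fm + Fm * Fm = -((1 / 2 : ℂ) • Em)

/-- The relations of the grading involution `R`. -/
def GradeRel {A : Type} [Ring A] (H Ep Em Fp Fm R : A) : Prop :=
  R * R = 1 ∧ R * H = H * R ∧ R * Ep = Ep * R ∧ R * Em = Em * R ∧
    R * Fp = -(Fp * R) ∧ R * Fm = -(Fm * R)

/-- The operators `H, E⁺, E⁻, F⁺, F⁻, R` on `V` form the representation `[j]⁺`, `j = J/2`. -/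
def IsPlusIrrep {V : Type} [AddCommGroup V] [Module ℂ V] (J : ℕ)
    (H Ep Em Fp Fm R : Module.End ℂ V) : Prop :=
  OspRel H Ep Em Fp Fm ∧ GradeRel H Ep Em Fp Fm R ∧
  Module.finrank ℂ V = 2 * J + 1 ∧
  (∀ W : Submodule ℂ V, (∀ g ∈ [H, Ep, Em, Fp, Fm, R], ∀ w ∈ W, g w ∈ W) → W = ⊥ ∨ W = ⊤) ∧
  ∃ v : V, v ≠ 0 ∧ R v = v ∧ H v = ((J : ℂ) / 2) • v ∧ Fp v = 0 ∧ Ep v = 0

/-- `[F⁺, F⁻] R + R / 8`. -/
noncomputable def cas {A : Type} [Ring A] [Algebra ℂ A] (Fp Fm R : A) : A :=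
  (Fp * Fm - Fm * Fp) * R + (1 / 8 : ℂ) • R

/-- `a ⊗ b ⊗ c` acting on the threefold tensor power. -/
noncomputable def t3 {V : Type} [AddCommGroup V] [Module ℂ V] (a b c : Module.End ℂ V) :
    Module.End ℂ ((V ⊗[ℂ] V) ⊗[ℂ] V) :=
  TensorProduct.map (TensorProduct.map a b) c

/-- The images of `X, Y, Z, ω_X, ω_Y, ω_Z` (in this order) under `Φ`, where `t a b c` stands for
`a ⊗ b ⊗ c`. -/
noncomputable def genImage {B A : Type} [Ring B] [Algebra ℂ B] [Ring A] [Algebra ℂ A]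
    (t : B → B → B → A) (Fp Fm R : B) : Fin 6 → A :=
  let Q1 := t (cas Fp Fm R) 1 1
  let Q2 := t 1 (cas Fp Fm R) 1
  let Q3 := t 1 1 (cas Fp Fm R)
  let Q12 := cas (t Fp R 1 + t 1 Fp 1) (t Fm R 1 + t 1 Fm 1) (t R R 1)
  let Q23 := cas (t 1 Fp R + t 1 1 Fp) (t 1 Fm R + t 1 1 Fm) (t 1 R R)
  let Q13 := cas (t Fp R R + t 1 1 Fp) (t Fm R R + t 1 1 Fm) (t R 1 R)
  let Q4 := cas (t Fp R R + t 1 Fp R + t 1 1 Fp) (t Fm R R + t 1 Fm R + t 1 1 Fm) (t R R R)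
  ![(-4 : ℂ) • Q12 + (1 / 2 : ℂ) • 1, (-4 : ℂ) • Q23 + (1 / 2 : ℂ) • 1,
    (-4 : ℂ) • Q13 + (1 / 2 : ℂ) • 1,
    (32 : ℂ) • (Q1 * Q2 + Q3 * Q4) - 1, (32 : ℂ) • (Q2 * Q3 + Q1 * Q4) - 1,
    (32 : ℂ) • (Q1 * Q3 + Q2 * Q4) - 1]

/-- The defining relations `a = b` of `I₃` on elements `X, Y, Z, ω_X, ω_Y, ω_Z`. -/
def BaseRel {A : Type} [Ring A] (X Y Z wX wY wZ : A) (a b : A) : Prop :=
  (a = X * Y + Y * X ∧ b = X + Y + Z + wZ) ∨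
  (a = X * Z + Z * X ∧ b = X + Y + Z + wY) ∨
  (a = Y * Z + Z * Y ∧ b = X + Y + Z + wX) ∨
  (∃ w ∈ [wX, wY, wZ], ∃ g ∈ [X, Y, Z, wX, wY, wZ], a = w * g ∧ b = g * w)

/-- The extra relations `a = b` of the quotient attached to `j = J/2` and a finite set `M`. -/
def ExtraRel {A : Type} [Ring A] [Algebra ℂ A] (J : ℕ) (M : Finset ℂ) (X Y Z wX wY wZ : A)
    (a b : A) : Prop :=
  (a = wY ∧ b = wX) ∨ (a = wZ ∧ b = wX) ∨
  (∃ W ∈ [X, Y, Z], b = 0 ∧ a = Polynomial.aeval W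
    (∏ k ∈ Finset.Icc (-(J : ℤ)) (J : ℤ), (Polynomial.X - Polynomial.C (2 * (k : ℂ))))) ∨
  (b = 0 ∧ a = Polynomial.aeval wX
    (∏ i ∈ Finset.Icc 0 (3 * J), (Polynomial.X - Polynomial.C
      ((4 * ((J : ℂ) / 2) + 1) * (2 * ((J : ℂ) / 2) + 1 - 2 * (-3 * ((J : ℂ) / 2) + (i : ℂ)))
        - 1)))) ∨
  (∃ W ∈ [X, Y, Z], b = 0 ∧ a = Polynomial.aeval (W - wX)
    (∏ m ∈ M, (Polynomial.X - Polynomial.C m)))

/-- All relations of the quotient, on six elements `g 0, …, g 5`. -/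
def QuotRel {A : Type} [Ring A] [Algebra ℂ A] (J : ℕ) (M : Finset ℂ) (g : Fin 6 → A)
    (a b : A) : Prop :=
  BaseRel (g 0) (g 1) (g 2) (g 3) (g 4) (g 5) a b ∨
    ExtraRel J M (g 0) (g 1) (g 2) (g 3) (g 4) (g 5) a b

/-- `g i ↦ y i` induces an injective algebra map from the quotient of `F` by `r` into `A`. -/
def InducesInj {F A : Type} [Ring F] [Algebra ℂ F] [Ring A] [Algebra ℂ A] (r : F → F → Prop)
    (g : Fin 6 → F) (y : Fin 6 → A) : Prop :=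
  ∃ φ : RingQuot r →ₐ[ℂ] A, (∀ i, φ (RingQuot.mkAlgHom ℂ r (g i)) = y i) ∧ Function.Injective φ

/-- The generators' images in `End U` induce an injective map from the quotient of `I₃`. -/
def QuotEmbeds {B U : Type} [Ring B] [Algebra ℂ B] [AddCommGroup U] [Module ℂ U] (J : ℕ)
    (M : Finset ℂ) (t : B → B → B → Module.End ℂ U) (Fp Fm R : B) : Prop :=
  InducesInj (QuotRel J M (FreeAlgebra.ι ℂ : Fin 6 → FreeAlgebra ℂ (Fin 6))) (FreeAlgebra.ι ℂ)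
    (genImage t Fp Fm R)

end Pool.Agent.P.MP_56b3f5_al
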