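import Pool.Agent.P.MP_56b3f5_al.Alg

set_option autoImplicit false
set_option linter.unusedSectionVars false

open scoped TensorProduct

namespace Pool.Agent.P.MP_56b3f5_al

/-- the coefficients of the raising operator on the string of a highest weight vector -/
noncomputable def cf (lam : ℂ) : ℕ → ℂ
  | 0 => 0
  | 1 => lam
  | (k + 2) => cf lam k - 1 / 4

theorem cf_add (lam : ℂ) (k : ℕ) : cf lam (k + 1) + cf lam k = lam - (k : ℂ) / 4 := by
  induction k with
  | zero => simp [cf]
  | succ k ih =>
    rw [cf]; push_cast; linear_combination ih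

section HW
variable {V : Type} [AddCommGroup V] [Module ℂ V]

structure IsHW (P M R : Module.End ℂ V) (x : V) (lam eps : ℂ) : Prop where
  ne : x ≠ 0
  hP : P x = 0
  hPM : P (M x) = lam • x
  hR : R x = eps • x

theorem IsHW.raise {P M R : Module.End ℂ V} {x : V} {lam eps : ℂ} (hp : OspPair P M)
    (h : IsHW P M R x lam eps) (k : ℕ) :
    P ((M ^ (k + 1)) x) = cf lam (k + 1) • (M ^ k) x := by
  induction k using Nat.strong_induction_on with
  | _ k ih =>
    have key : ∀ y : V, P (M (M y)) = M (M (P y)) - (1 / 4 : ℂ) • M y := by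
      intro y
      have := congrArg (fun T : Module.End ℂ V => T y) hp.2
      simp only [LinearMap.smul_apply, LinearMap.sub_apply, Module.End.mul_apply] at this
      linear_combination (norm := module) (-1 / 4 : ℂ) • this
    match k with
    | 0 => simpa [cf] using h.hPM
    | 1 =>
      have := key x
      simp only [h.hP, map_zero, zero_sub] at this
      simp only [cf, pow_succ', pow_zero, mul_one, Module.End.mul_apply, this]
      module
    | (k + 2) =>
      have e := key ((M ^ (k + 1)) x)
      rw [ih k (by omega)] at e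
      rw [cf]
      simp only [pow_succ', Module.End.mul_apply, map_smul] at e ⊢
      rw [e]; module

theorem IsHW.par {P M R : Module.End ℂ V} {x : V} {lam eps : ℂ} (rm : Anti R M)
    (h : IsHW P M R x lam eps) (k : ℕ) :
    R ((M ^ k) x) = (eps * (-1) ^ k) • (M ^ k) x := by
  induction k with
  | zero => simpa using h.hR
  | succ k ih =>
    have := congrArg (fun T : Module.End ℂ V => T ((M ^ k) x)) rm
    simp only [LinearMap.neg_apply, Module.End.mul_apply] at this
    simp only [pow_succ' M, Module.End.mul_apply, this, ih, map_smul, pow_succ (-1 : ℂ)]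
    module

theorem IsHW.wt {P M R : Module.End ℂ V} {x : V} {lam eps : ℂ} (hp : OspPair P M)
    (h : IsHW P M R x lam eps) (k : ℕ) :
    (P * M + M * P) ((M ^ k) x) = (lam - (k : ℂ) / 4) • (M ^ k) x := by
  rw [← cf_add]
  have e := h.raise hp k
  simp only [pow_succ' M, Module.End.mul_apply] at e
  simp only [LinearMap.add_apply, Module.End.mul_apply, e]
  match k with
  | 0 => simp [h.hP, cf]
  | (k + 1) =>
    rw [h.raise hp k, map_smul]
    simp only [pow_succ' M, Module.End.mul_apply]
    module

theorem IsHW.kill {P M R : Module.End ℂ V} {x : V} {lam eps : ℂ} (hp : OspPair P M)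
    (h : IsHW P M R x lam eps) (m b : ℕ) (hb : b < m) : (P ^ m) ((M ^ b) x) = 0 := by
  induction b generalizing m with
  | zero =>
    obtain ⟨n, rfl⟩ : ∃ n, m = n + 1 := ⟨m - 1, by omega⟩
    simp [pow_succ, h.hP]
  | succ b ih =>
    obtain ⟨n, rfl⟩ : ∃ n, m = n + 1 := ⟨m - 1, by omega⟩
    rw [pow_succ P, Module.End.mul_apply, h.raise hp, map_smul, ih n (by omega), smul_zero]

theorem IsHW.down {P M R : Module.End ℂ V} {x : V} {lam eps : ℂ} (hp : OspPair P M)
    (h : IsHW P M R x lam eps) (m : ℕ) :
    (P ^ m) ((M ^ m) x) = (∏ k ∈ Finset.range m, cf lam (k + 1)) • x := by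
  induction m with
  | zero => simp
  | succ m ih =>
    rw [pow_succ P, Module.End.mul_apply, h.raise hp, map_smul, ih, Finset.prod_range_succ,
      smul_smul, mul_comm]

theorem IsHW.cas_apply {P M R : Module.End ℂ V} {x : V} {lam eps : ℂ}
    (h : IsHW P M R x lam eps) : cas P M R x = (eps * (lam + 1 / 8)) • x := by
  simp only [cas, LinearMap.add_apply, LinearMap.sub_apply, Module.End.mul_apply,
    LinearMap.smul_apply, h.hR, map_smul, h.hP, h.hPM, map_zero]
  module

end HW

section Tensor
variable {V W : Type} [AddCommGroup V] [Module ℂ V] [AddCommGroup W] [Module ℂ W]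

theorem tmul_ne_zero' {x : V} {y : W} (hx : x ≠ 0) (hy : y ≠ 0) : x ⊗ₜ[ℂ] y ≠ 0 := by
  intro h
  obtain ⟨f, hf⟩ : ∃ f : Module.Dual ℂ V, f x ≠ 0 := by
    by_contra hc
    push Not at hc
    exact hx ((Module.forall_dual_apply_eq_zero_iff ℂ x).1 hc)
  obtain ⟨g, hg⟩ : ∃ g : Module.Dual ℂ W, g y ≠ 0 := by
    by_contra hc
    push Not at hc
    exact hy ((Module.forall_dual_apply_eq_zero_iff ℂ y).1 hc)
  have := congrArg (fun t => TensorProduct.lid ℂ ℂ (TensorProduct.map f g t)) h
  simp only [TensorProduct.map_tmul, TensorProduct.lid_tmul, map_zero, smul_eq_mul] at this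
  exact (mul_ne_zero hf hg) this

theorem tm_mul (a a' : Module.End ℂ V) (b b' : Module.End ℂ W) :
    TensorProduct.map a b * TensorProduct.map a' b' = TensorProduct.map (a * a') (b * b') :=
  (TensorProduct.map_mul a a' b b').symm

theorem tm_neg_right (a : Module.End ℂ V) (b : Module.End ℂ W) :
    TensorProduct.map a (-b) = -TensorProduct.map a b := by
  ext; simp [TensorProduct.tmul_neg]

theorem tm_neg_left (a : Module.End ℂ V) (b : Module.End ℂ W) :
    TensorProduct.map (-a) b = -TensorProduct.map a b := by
  ext; simp [TensorProduct.neg_tmul]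

theorem tm_sub_left (a a' : Module.End ℂ V) (b : Module.End ℂ W) :
    TensorProduct.map (a - a') b = TensorProduct.map a b - TensorProduct.map a' b := by
  ext; simp [TensorProduct.sub_tmul]

theorem tm_sub_right (a : Module.End ℂ V) (b b' : Module.End ℂ W) :
    TensorProduct.map a (b - b') = TensorProduct.map a b - TensorProduct.map a b' := by
  ext; simp [TensorProduct.tmul_sub]

theorem anti_tm {a : Module.End ℂ V} {r b : Module.End ℂ W} (h : Anti r b) :
    Anti (TensorProduct.map a r) (TensorProduct.map (1 : Module.End ℂ V) b) := by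
  unfold Anti at *
  rw [tm_mul, tm_mul, h, tm_neg_right, mul_one, one_mul]

theorem pair_left {P M : Module.End ℂ V} {r : Module.End ℂ W} (h : OspPair P M) (hr : r * r = 1) :
    OspPair (TensorProduct.map P r) (TensorProduct.map M r) := by
  obtain ⟨a, b⟩ := h
  constructor
  · simp only [tm_mul, hr, one_mul]
    rw [← tm_sub_left, ← TensorProduct.map_smul_left, a]
  · simp only [tm_mul, hr, one_mul]
    rw [← tm_sub_left, ← TensorProduct.map_smul_left, b]

theorem pair_right {P M : Module.End ℂ W} (h : OspPair P M) :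
    OspPair (TensorProduct.map (1 : Module.End ℂ V) P) (TensorProduct.map 1 M) := by
  obtain ⟨a, b⟩ := h
  constructor
  · simp only [tm_mul, one_mul]
    rw [← tm_sub_right, ← TensorProduct.map_smul_right, a]
  · simp only [tm_mul, one_mul]
    rw [← tm_sub_right, ← TensorProduct.map_smul_right, b]

theorem pair_cop {P M : Module.End ℂ V} {P' M' R' : Module.End ℂ W} (h : OspPair P M)
    (h' : OspPair P' M') (hr : R' * R' = 1) (rp : Anti R' P') (rm : Anti R' M') :
    OspPair (TensorProduct.map P R' + TensorProduct.map 1 P')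
      (TensorProduct.map M R' + TensorProduct.map 1 M') :=
  (pair_left h hr).add (pair_right h') (anti_tm rp) (anti_tm rm) (anti_tm rp) (anti_tm rm)

theorem anti_cop {F R : Module.End ℂ V} {F' R' : Module.End ℂ W} (h : Anti R F)
    (h' : Anti R' F') :
    Anti (TensorProduct.map R R') (TensorProduct.map F R' + TensorProduct.map 1 F') := by
  apply Anti.add_right
  · unfold Anti at *
    rw [tm_mul, tm_mul, h, tm_neg_left]
  · exact anti_tm h'

/-- coefficients of the highest weight vector at depth `m` -/
noncomputable def gam (lam mu eta : ℂ) (m : ℕ) : ℕ → ℂ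
  | 0 => 1
  | (a + 1) => -(gam lam mu eta m a * cf mu (m - a) * (eta * (-1) ^ (m - (a + 1)))) / cf lam (a + 1)

theorem exists_hw_tensor {P M R : Module.End ℂ V} {P' M' R' : Module.End ℂ W}
    (hp : OspPair P M) (hp' : OspPair P' M') (rm : Anti R M) (hr' : R' * R' = 1)
    (rp' : Anti R' P') (rm' : Anti R' M') {x : V} {y : W} {lam eps mu eta : ℂ}
    (hx : IsHW P M R x lam eps) (hy : IsHW P' M' R' y mu eta) (heta : eta * eta = 1) (m : ℕ)
    (hc : ∀ k < m, cf lam (k + 1) ≠ 0) (hc' : ∀ k < m, cf mu (k + 1) ≠ 0)
    (T : Module.End ℂ V) (tau : ℂ) (hT : T * M = M * T) (hTx : T x = tau • x) :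
    ∃ u : V ⊗[ℂ] W, IsHW (TensorProduct.map P R' + TensorProduct.map 1 P')
      (TensorProduct.map M R' + TensorProduct.map 1 M') (TensorProduct.map R R') u
      (lam + mu - (m : ℂ) / 4) (eps * eta * (-1) ^ m) ∧
      TensorProduct.map T (1 : Module.End ℂ W) u = tau • u := by
  have hTk : ∀ k : ℕ, T ((M ^ k) x) = tau • (M ^ k) x := by
    intro k
    induction k with
    | zero => simpa using hTx
    | succ k ih =>
      have := congrArg (fun S : Module.End ℂ V => S ((M ^ k) x)) hT
      simp only [Module.End.mul_apply] at this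
      simp only [pow_succ' M, Module.End.mul_apply, this, ih, map_smul]
  set u : V ⊗[ℂ] W := ∑ a ∈ Finset.range (m + 1),
    gam lam mu eta m a • ((M ^ a) x ⊗ₜ[ℂ] (M' ^ (m - a)) y) with hu
  have hPu : (TensorProduct.map P R' + TensorProduct.map (1 : Module.End ℂ V) P') u = 0 := by
    rw [LinearMap.add_apply, hu, map_sum, map_sum, Finset.sum_range_succ' _ m,
      Finset.sum_range_succ _ m]
    simp only [map_smul, TensorProduct.map_tmul, Module.End.one_apply, pow_zero, Nat.sub_self,
      hx.hP, hy.hP, TensorProduct.zero_tmul, TensorProduct.tmul_zero, smul_zero, add_zero]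
    rw [← Finset.sum_add_distrib]
    apply Finset.sum_eq_zero
    intro a ha
    rw [Finset.mem_range] at ha
    obtain ⟨b, hb⟩ : ∃ b, m - a = b + 1 := ⟨m - a - 1, by omega⟩
    have hb' : m - (a + 1) = b := by omega
    rw [gam, hb, hb', hx.raise hp, hy.raise hp', hy.par rm']
    simp only [TensorProduct.smul_tmul', TensorProduct.tmul_smul, smul_smul]
    rw [← TensorProduct.add_tmul, ← add_smul]
    have hne := hc a ha
    have hs : ((-1 : ℂ) ^ b) * (-1) ^ b = 1 := by rw [← mul_pow]; simp
    have : -(gam lam mu eta m a * cf mu (b + 1) * (eta * (-1) ^ b)) / cf lam (a + 1) *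
        (eta * (-1) ^ b * cf lam (a + 1)) + gam lam mu eta m a * cf mu (b + 1) = 0 := by
      field_simp
      linear_combination (-(gam lam mu eta m a * cf mu (b + 1))) * ((-1) ^ b * (-1) ^ b * heta + hs)
    rw [this, zero_smul, TensorProduct.zero_tmul]
  have hwt : (TensorProduct.map (P * M + M * P) (1 : Module.End ℂ W)
      + TensorProduct.map (1 : Module.End ℂ V) (P' * M' + M' * P')) u
      = (lam + mu - (m : ℂ) / 4) • u := by
    rw [hu, map_sum, Finset.smul_sum]
    apply Finset.sum_congr rfl
    intro a ha
    rw [Finset.mem_range] at ha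
    rw [map_smul, LinearMap.add_apply, TensorProduct.map_tmul, TensorProduct.map_tmul,
      hx.wt hp, hy.wt hp', Nat.cast_sub (by omega)]
    simp only [Module.End.one_apply, ← TensorProduct.smul_tmul', TensorProduct.tmul_smul]
    module
  refine ⟨u, ⟨?_, hPu, ?_, ?_⟩, ?_⟩
  · intro h0
    have := congrArg (TensorProduct.map (1 : Module.End ℂ V) (P' ^ m)) h0
    rw [hu, map_sum, Finset.sum_range_succ' _ m, Finset.sum_eq_zero] at this
    · simp only [TensorProduct.map_tmul, Module.End.one_apply, pow_zero, Nat.sub_zero,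
        gam, one_smul, zero_add, map_zero, hy.down hp', TensorProduct.tmul_smul] at this
      rcases smul_eq_zero.1 this with h | h
      · exact (Finset.prod_ne_zero_iff.2 fun k hk => hc' k (Finset.mem_range.1 hk)) h
      · exact tmul_ne_zero' hx.ne hy.ne h
    · intro a ha
      rw [Finset.mem_range] at ha
      rw [map_smul, TensorProduct.map_tmul, hy.kill hp' m _ (by omega), TensorProduct.tmul_zero,
        smul_zero]
  · have e := anti_sum_acomm (P1 := TensorProduct.map P R') (M1 := TensorProduct.map M R')
      (P2 := TensorProduct.map (1 : Module.End ℂ V) P')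
      (M2 := TensorProduct.map (1 : Module.End ℂ V) M')
      (anti_tm rm') (anti_tm rp')
    have e2 := congrArg (fun S : Module.End ℂ (V ⊗[ℂ] W) => S u) e
    simp only [tm_mul, hr', mul_one] at e2
    rw [← TensorProduct.map_add_left, ← TensorProduct.map_add_right, hwt, LinearMap.add_apply,
      Module.End.mul_apply, Module.End.mul_apply, hPu, map_zero, add_zero] at e2
    exact e2
  · rw [hu, map_sum, Finset.smul_sum]
    apply Finset.sum_congr rfl
    intro a ha
    rw [Finset.mem_range] at ha
    rw [map_smul, TensorProduct.map_tmul, hx.par rm, hy.par rm']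
    obtain ⟨b, rfl⟩ : ∃ b, m = a + b := ⟨m - a, by omega⟩
    simp only [Nat.add_sub_cancel_left, ← TensorProduct.smul_tmul', TensorProduct.tmul_smul,
      pow_add]
    module
  · rw [hu, map_sum, Finset.smul_sum]
    apply Finset.sum_congr rfl
    intro a _
    rw [map_smul, TensorProduct.map_tmul, hTk]
    simp only [Module.End.one_apply, ← TensorProduct.smul_tmul']
    module

end Tensor

end Pool.Agent.P.MP_56b3f5_al
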