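import Pool.Agent.P.MP_56b3f5_al.Model

set_option autoImplicit false
set_option linter.unusedSectionVars false
set_option linter.unusedSimpArgs false

open scoped TensorProduct

namespace Pool.Agent.P.MP_56b3f5_al

section
variable {V : Type} [AddCommGroup V] [Module ℂ V]

theorem IsPlusIrrep.pair {J : ℕ} {H Ep Em P M R : Module.End ℂ V}
    (h : IsPlusIrrep J H Ep Em P M R) : OspPair P M := by
  obtain ⟨⟨-, -, -, -, -, -, h7, h8, h9, h10⟩, -⟩ := h
  constructor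
  · linear_combination (norm := (simp only [mul_add, add_mul, sub_mul, mul_sub, smul_mul_assoc,
      mul_smul_comm, mul_assoc, mul_one, one_mul, smul_sub, smul_add]; module))
      (-1 : ℂ) • h7 + (2 : ℂ) • (M * h9) - (2 : ℂ) • (h9 * M)
  · have h10' : M * M + M * M = (-1 / 2 : ℂ) • Em := by rw [h10]; module
    linear_combination (norm := (simp only [mul_add, add_mul, sub_mul, mul_sub, smul_mul_assoc,
      mul_smul_comm, mul_assoc, mul_one, one_mul, smul_sub, smul_add]; module))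
      (-1 : ℂ) • h8 - (2 : ℂ) • (P * h10') + (2 : ℂ) • (h10' * P)

theorem IsPlusIrrep.exists_hw {J : ℕ} {H Ep Em P M R : Module.End ℂ V}
    (h : IsPlusIrrep J H Ep Em P M R) : ∃ v, IsHW P M R v ((J : ℂ) / 4) 1 := by
  obtain ⟨⟨-, -, -, -, -, h6, -⟩, -, -, -, v, hv, hR, hH, hP, -⟩ := h
  refine ⟨v, hv, hP, ?_, by simpa using hR⟩
  have := congrArg (fun T : Module.End ℂ V => T v) h6
  simp only [LinearMap.add_apply, Module.End.mul_apply, hP, map_zero, add_zero,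
    LinearMap.smul_apply, hH] at this
  rw [this]; module

theorem IsPlusIrrep.cas_scalar {J : ℕ} {H Ep Em P M R : Module.End ℂ V}
    (h : IsPlusIrrep J H Ep Em P M R) : cas P M R = ((2 * (J : ℂ) + 1) / 8) • 1 := by
  have hp := h.pair
  obtain ⟨v, hv⟩ := h.exists_hw
  obtain ⟨⟨-, -, -, -, -, h6, -, -, h9, h10⟩, ⟨-, -, -, -, rp, rm⟩, -, hirr, -⟩ := h
  have cP := cas_comm_P hp (R := R) rp
  have cM := cas_comm_M hp (R := R) rm
  have cR := cas_comm_R (P := P) (M := M) (R := R) rp rm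
  set Q := cas P M R with hQ
  set c : ℂ := (2 * (J : ℂ) + 1) / 8 with hc
  have inv : ∀ g : Module.End ℂ V, Q * g = g * Q → ∀ w ∈ Module.End.eigenspace Q c,
      g w ∈ Module.End.eigenspace Q c := by
    intro g hg w hw
    rw [Module.End.mem_eigenspace_iff] at hw ⊢
    rw [← Module.End.mul_apply, hg, Module.End.mul_apply, hw, map_smul]
  have iP := inv P cP
  have iM := inv M cM
  have eH : H = (2 : ℂ) • (P * M + M * P) := by rw [h6]; module
  have eEp : Ep = (2 : ℂ) • (P * P + P * P) := by rw [h9]; module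
  have eEm : Em = (-2 : ℂ) • (M * M + M * M) := by rw [h10]; module
  have := hirr (Module.End.eigenspace Q c) (by
    intro g hg w hw
    simp only [List.mem_cons, List.not_mem_nil, or_false] at hg
    rcases hg with rfl | rfl | rfl | rfl | rfl | rfl
    · rw [eH]
      exact Submodule.smul_mem _ _ (Submodule.add_mem _ (iP _ (iM _ hw)) (iM _ (iP _ hw)))
    · rw [eEp]
      exact Submodule.smul_mem _ _ (Submodule.add_mem _ (iP _ (iP _ hw)) (iP _ (iP _ hw)))
    · rw [eEm]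
      exact Submodule.smul_mem _ _ (Submodule.add_mem _ (iM _ (iM _ hw)) (iM _ (iM _ hw)))
    · exact iP w hw
    · exact iM w hw
    · exact inv _ cR w hw)
  have hvmem : v ∈ Module.End.eigenspace Q c := by
    rw [Module.End.mem_eigenspace_iff, hQ, hv.cas_apply, hc]
    congr 1; ring
  rcases this with h0 | h1
  · rw [h0] at hvmem
    exact absurd ((Submodule.mem_bot ℂ).1 hvmem) hv.ne
  · ext w
    have : w ∈ Module.End.eigenspace Q c := h1 ▸ Submodule.mem_top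
    rw [Module.End.mem_eigenspace_iff] at this
    simpa using this

theorem t3_mul (a b c a' b' c' : Module.End ℂ V) :
    t3 a b c * t3 a' b' c' = t3 (a * a') (b * b') (c * c') := by
  simp only [t3, tm_mul]

theorem t3_neg1 (a b c : Module.End ℂ V) : t3 (-a) b c = -t3 a b c := by
  simp only [t3, tm_neg_left]

theorem t3_neg2 (a b c : Module.End ℂ V) : t3 a (-b) c = -t3 a b c := by
  simp only [t3, tm_neg_left, tm_neg_right]

theorem t3_neg3 (a b c : Module.End ℂ V) : t3 a b (-c) = -t3 a b c := by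
  simp only [t3, tm_neg_right]

theorem t3_one : t3 (1 : Module.End ℂ V) 1 1 = 1 := by
  simp only [t3, TensorProduct.map_one]

theorem t3_smul1 (s : ℂ) (a b c : Module.End ℂ V) : t3 (s • a) b c = s • t3 a b c := by
  simp only [t3, TensorProduct.map_smul_left]

theorem t3_smul2 (s : ℂ) (a b c : Module.End ℂ V) : t3 a (s • b) c = s • t3 a b c := by
  simp only [t3, TensorProduct.map_smul_left, TensorProduct.map_smul_right]

theorem t3_smul3 (s : ℂ) (a b c : Module.End ℂ V) : t3 a b (s • c) = s • t3 a b c := by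
  simp only [t3, TensorProduct.map_smul_right]

theorem anti_t3_12 {R a b : Module.End ℂ V} (hb : Anti R b) : Anti (t3 a R R) (t3 1 b R) := by
  unfold Anti at *
  rw [t3_mul, t3_mul, hb, t3_neg2, mul_one, one_mul]

theorem anti_t3_13 {R a b : Module.End ℂ V} (hb : Anti R b) : Anti (t3 a R R) (t3 1 1 b) := by
  unfold Anti at *
  rw [t3_mul, t3_mul, hb, t3_neg3]
  simp only [mul_one, one_mul]

theorem anti_t3_23 {R a b : Module.End ℂ V} (hb : Anti R b) : Anti (t3 1 a R) (t3 1 1 b) := by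
  unfold Anti at *
  rw [t3_mul, t3_mul, hb, t3_neg3]
  simp only [mul_one, one_mul]

theorem sc_tm_left {W : Type} [AddCommGroup W] [Module ℂ W] (P M : Module.End ℂ V)
    {r : Module.End ℂ W} (hr : r * r = 1) :
    sc (TensorProduct.map P r) (TensorProduct.map M r) = TensorProduct.map (sc P M) 1 := by
  simp only [sc, tm_mul, hr, TensorProduct.map_add_left, tm_sub_left, TensorProduct.map_smul_left,
    TensorProduct.map_one]

theorem sc_tm_right {W : Type} [AddCommGroup W] [Module ℂ W] (P M : Module.End ℂ V) :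
    sc (TensorProduct.map (1 : Module.End ℂ W) P) (TensorProduct.map 1 M)
      = TensorProduct.map 1 (sc P M) := by
  simp only [sc, tm_mul, mul_one, TensorProduct.map_add_right, tm_sub_right,
    TensorProduct.map_smul_right, TensorProduct.map_one]

theorem cas_tm_left {W : Type} [AddCommGroup W] [Module ℂ W] (P M R : Module.End ℂ V) :
    cas (TensorProduct.map P (1 : Module.End ℂ W)) (TensorProduct.map M 1) (TensorProduct.map R 1)
      = TensorProduct.map (cas P M R) 1 := by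
  rw [cas_eq, cas_eq, sc_tm_left _ _ (mul_one _), tm_mul, mul_one]

/-- The Casimir identity in the threefold tensor power. -/
theorem casimir_t3 {P M R : Module.End ℂ V} (hp : OspPair P M) (rr : R * R = 1) (rp : Anti R P)
    (rm : Anti R M) {c : ℂ} (hc : cas P M R = c • 1) :
    cas (t3 P R 1 + t3 1 P 1) (t3 M R 1 + t3 1 M 1) (t3 R R 1) ^ 2
      + cas (t3 1 P R + t3 1 1 P) (t3 1 M R + t3 1 1 M) (t3 1 R R) ^ 2
      + cas (t3 P R R + t3 1 1 P) (t3 M R R + t3 1 1 M) (t3 R 1 R) ^ 2 + (1 / 64 : ℂ) • 1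
    = (3 * c ^ 2) • 1 + cas (t3 P R R + t3 1 P R + t3 1 1 P) (t3 M R R + t3 1 M R + t3 1 1 M)
        (t3 R R R) ^ 2 := by
  have p1 : OspPair (t3 P R R) (t3 M R R) := pair_left (pair_left hp rr) rr
  have p2 : OspPair (t3 1 P R) (t3 1 M R) := pair_left (pair_right hp) rr
  have p3 : OspPair (t3 1 1 P) (t3 1 1 M) := by
    simp only [t3, TensorProduct.map_one]
    exact pair_right hp
  have key := casimir_identity p1 p2 p3 (anti_t3_12 rp) (anti_t3_12 rm) (anti_t3_12 rp)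
    (anti_t3_12 rm) (anti_t3_13 rp) (anti_t3_13 rm) (anti_t3_13 rp) (anti_t3_13 rm)
    (anti_t3_23 rp) (anti_t3_23 rm) (anti_t3_23 rp) (anti_t3_23 rm)
  have s0 : sc P M * sc P M = (c ^ 2) • 1 := by
    rw [← cas_sq rr rp rm, hc, smul_mul_assoc, one_mul, smul_smul, sq]
  have s1 : sc (t3 P R R) (t3 M R R) * sc (t3 P R R) (t3 M R R) = (c ^ 2) • 1 := by
    simp only [t3, sc_tm_left _ _ rr, tm_mul, s0, mul_one, TensorProduct.map_smul_left,
      TensorProduct.map_one]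
  have s2 : sc (t3 1 P R) (t3 1 M R) * sc (t3 1 P R) (t3 1 M R) = (c ^ 2) • 1 := by
    simp only [t3, sc_tm_left _ _ rr, sc_tm_right, tm_mul, s0, mul_one,
      TensorProduct.map_smul_left, TensorProduct.map_smul_right, TensorProduct.map_one]
  have s3 : sc (t3 1 1 P) (t3 1 1 M) * sc (t3 1 1 P) (t3 1 1 M) = (c ^ 2) • 1 := by
    simp only [t3, TensorProduct.map_one, sc_tm_right, tm_mul, s0, mul_one,
      TensorProduct.map_smul_right]
  have r12 : ∀ F : Module.End ℂ V, Anti R F → Anti (t3 R R 1) (t3 F R 1 + t3 1 F 1) := by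
    intro F hF
    apply Anti.add_right
    · unfold Anti at *
      rw [t3_mul, t3_mul, hF, t3_neg1]
    · unfold Anti at *
      rw [t3_mul, t3_mul, hF, t3_neg2]
      simp only [mul_one, one_mul]
  have r23 : ∀ F : Module.End ℂ V, Anti R F → Anti (t3 1 R R) (t3 1 F R + t3 1 1 F) := by
    intro F hF
    apply Anti.add_right
    · unfold Anti at *
      rw [t3_mul, t3_mul, hF, t3_neg2]
    · exact anti_t3_23 hF
  have r13 : ∀ F : Module.End ℂ V, Anti R F → Anti (t3 R 1 R) (t3 F R R + t3 1 1 F) := by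
    intro F hF
    apply Anti.add_right
    · unfold Anti at *
      rw [t3_mul, t3_mul, hF, t3_neg1]
      simp only [mul_one, one_mul]
    · unfold Anti at *
      rw [t3_mul, t3_mul, hF, t3_neg3]
      simp only [mul_one, one_mul]
  have r123 : ∀ F : Module.End ℂ V, Anti R F →
      Anti (t3 R R R) (t3 F R R + t3 1 F R + t3 1 1 F) := by
    intro F hF
    refine Anti.add_right (Anti.add_right ?_ (anti_t3_12 hF)) (anti_t3_13 hF)
    unfold Anti at *
    rw [t3_mul, t3_mul, hF, t3_neg1]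
  have e12 : sc (t3 P R 1 + t3 1 P 1) (t3 M R 1 + t3 1 M 1)
      = sc (t3 P R R + t3 1 P R) (t3 M R R + t3 1 M R) := by
    simp only [sc, mul_add, add_mul, t3_mul, rr, mul_one, one_mul]
  rw [sq, sq, sq, sq (cas _ _ _),
    cas_sq (by rw [t3_mul, rr, mul_one, t3_one]) (r12 P rp) (r12 M rm),
    cas_sq (by rw [t3_mul, rr, mul_one, t3_one]) (r23 P rp) (r23 M rm),
    cas_sq (by rw [t3_mul, rr, mul_one, t3_one]) (r13 P rp) (r13 M rm),
    cas_sq (by rw [t3_mul, rr, t3_one]) (r123 P rp) (r123 M rm), e12, key, s1, s2, s3]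
  module

/-- `-16` is an eigenvalue of the image of `X - ω` for `j = 7/2`. -/
theorem exists_eigen {H Ep Em P M R : Module.End ℂ V} (h : IsPlusIrrep 7 H Ep Em P M R) :
    ∃ u : (V ⊗[ℂ] V) ⊗[ℂ] V, u ≠ 0 ∧
      (genImage t3 P M R 0 - genImage t3 P M R 3) u = (-16 : ℂ) • u := by
  have hp := h.pair
  have hc := h.cas_scalar
  obtain ⟨v, hv⟩ := h.exists_hw
  obtain ⟨-, ⟨rr, -, -, -, rp, rm⟩, -⟩ := h
  obtain ⟨w, hw, -⟩ := exists_hw_tensor hp hp rm rr rp rm hv hv (mul_one 1) 12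
    (fun k hk => cf_ne_zero 7 k (by omega)) (fun k hk => cf_ne_zero 7 k (by omega))
    1 1 (by simp) (by simp)
  have e1 : ((7 : ℕ) : ℂ) / 4 + ((7 : ℕ) : ℂ) / 4 - ((12 : ℕ) : ℂ) / 4 = ((2 : ℕ) : ℂ) / 4 := by
    norm_num
  rw [e1] at hw
  have hp2 := pair_cop hp hp rr rp rm
  have rm2 : Anti (TensorProduct.map R R) (TensorProduct.map M R + TensorProduct.map 1 M) :=
    anti_cop rm rm
  obtain ⟨u, hu, hT⟩ := exists_hw_tensor hp2 hp rm2 rr rp rm hw hv (mul_one 1) 3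
    (fun k hk => cf_ne_zero 2 k (by omega)) (fun k hk => cf_ne_zero 7 k (by omega))
    _ _ (cas_comm_M hp2 rm2) hw.cas_apply
  refine ⟨u, hu.ne, ?_⟩
  have q4 := hu.cas_apply
  have q12 : cas (t3 P R 1 + t3 1 P 1) (t3 M R 1 + t3 1 M 1) (t3 R R 1) u = (5 / 8 : ℂ) • u := by
    simp only [t3, ← TensorProduct.map_add_left, cas_tm_left, hT]
    congr 1; norm_num
  have q4' : cas (t3 P R R + t3 1 P R + t3 1 1 P) (t3 M R R + t3 1 M R + t3 1 1 M) (t3 R R R) u
      = (-13 / 8 : ℂ) • u := by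
    simp only [t3, ← TensorProduct.map_add_left, TensorProduct.map_one, q4]
    congr 1; norm_num
  simp only [genImage, hc, t3_smul1, t3_smul2, t3_smul3, t3_one, Matrix.cons_val_zero,
    Matrix.cons_val, LinearMap.sub_apply, LinearMap.add_apply, LinearMap.smul_apply,
    Module.End.mul_apply, Module.End.one_apply, q12, q4', map_smul]
  module

end

open Polynomial in
/-- the character `X, Y, Z ↦ -2`, `ω ↦ 14` -/
theorem exists_char (M : Finset ℂ) (hM : (-16 : ℂ) ∈ M) :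
    ∃ χ : RingQuot (QuotRel 7 M (FreeAlgebra.ι ℂ : Fin 6 → FreeAlgebra ℂ (Fin 6))) →ₐ[ℂ] ℂ, ∀ i : Fin 6,
      χ (RingQuot.mkAlgHom ℂ (QuotRel 7 M (FreeAlgebra.ι ℂ : Fin 6 → FreeAlgebra ℂ (Fin 6))) (FreeAlgebra.ι ℂ i)) = ![-2, -2, -2, 14, 14, 14] i := by
  let f : FreeAlgebra ℂ (Fin 6) →ₐ[ℂ] ℂ := FreeAlgebra.lift ℂ ![-2, -2, -2, 14, 14, 14]
  have hf : ∀ i, f (FreeAlgebra.ι ℂ i) = ![-2, -2, -2, 14, 14, 14] i := fun i => by simp [f]
  have f0 : f (FreeAlgebra.ι ℂ 0) = -2 := hf 0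
  have f1 : f (FreeAlgebra.ι ℂ 1) = -2 := hf 1
  have f2 : f (FreeAlgebra.ι ℂ 2) = -2 := hf 2
  have f3 : f (FreeAlgebra.ι ℂ 3) = 14 := hf 3
  have f4 : f (FreeAlgebra.ι ℂ 4) = 14 := hf 4
  have f5 : f (FreeAlgebra.ι ℂ 5) = 14 := hf 5
  have hW : ∀ W ∈ [FreeAlgebra.ι ℂ (0 : Fin 6), FreeAlgebra.ι ℂ (1 : Fin 6),
      FreeAlgebra.ι ℂ (2 : Fin 6)], f W = -2 := by
    intro W hW
    simp only [List.mem_cons, List.not_mem_nil, or_false] at hW
    rcases hW with rfl | rfl | rfl <;> assumption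
  have hrel : ∀ ⦃a b : FreeAlgebra ℂ (Fin 6)⦄, QuotRel 7 M (FreeAlgebra.ι ℂ : Fin 6 → FreeAlgebra ℂ (Fin 6)) a b → f a = f b := by
    intro a b hab
    unfold QuotRel BaseRel ExtraRel at hab
    rcases hab with (⟨rfl, rfl⟩ | ⟨rfl, rfl⟩ | ⟨rfl, rfl⟩ | ⟨w, -, g, -, rfl, rfl⟩) | ⟨rfl, rfl⟩ |
      ⟨rfl, rfl⟩ | ⟨W, hW', rfl, rfl⟩ | ⟨rfl, rfl⟩ | ⟨W, hW', rfl, rfl⟩
    · simp only [map_add, map_mul, f0, f1, f2, f5]; norm_num
    · simp only [map_add, map_mul, f0, f1, f2, f4]; norm_num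
    · simp only [map_add, map_mul, f0, f1, f2, f3]; norm_num
    · simp only [map_mul, mul_comm]
    · rw [f3, f4]
    · rw [f3, f5]
    · rw [← aeval_algHom_apply, hW W hW', map_zero, map_prod]
      apply Finset.prod_eq_zero (i := -1) (by simp)
      simp
    · rw [← aeval_algHom_apply, f3, map_zero, map_prod]
      apply Finset.prod_eq_zero (i := 14) (by simp)
      simp only [map_sub, aeval_X, aeval_C, Algebra.algebraMap_self, RingHom.id_apply]
      norm_num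
    · rw [← aeval_algHom_apply, map_sub, hW W hW', f3, map_zero, map_prod]
      apply Finset.prod_eq_zero hM
      simp only [map_sub, aeval_X, aeval_C, Algebra.algebraMap_self, RingHom.id_apply]
      norm_num
  refine ⟨RingQuot.liftAlgHom ℂ ⟨f, hrel⟩, fun i => ?_⟩
  rw [RingQuot.liftAlgHom_mkAlgHom_apply, hf]

theorem final_alg {A : Type} [Ring A] [Algebra ℂ A] (Q12 Q23 Q13 Q4 : A)
    (cs : Q12 ^ 2 + Q23 ^ 2 + Q13 ^ 2 + (1 / 64 : ℂ) • 1
      = (3 * ((2 * ((7 : ℕ) : ℂ) + 1) / 8) ^ 2) • 1 + Q4 ^ 2) :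
    ((-4 : ℂ) • Q12 + (1 / 2 : ℂ) • 1 - (1 / 2 : ℂ) • 1) ^ 2
      + ((-4 : ℂ) • Q23 + (1 / 2 : ℂ) • 1 - (1 / 2 : ℂ) • 1) ^ 2
      + ((-4 : ℂ) • Q13 + (1 / 2 : ℂ) • 1 - (1 / 2 : ℂ) • 1) ^ 2 + (1 / 4 : ℂ) • 1
    = (675 / 4 : ℂ) • 1 + ((1 / 15 : ℂ) • ((32 : ℂ) • (((2 * ((7 : ℕ) : ℂ) + 1) / 8) •
          (1 : A) * ((2 * ((7 : ℕ) : ℂ) + 1) / 8) • 1
          + ((2 * ((7 : ℕ) : ℂ) + 1) / 8) • 1 * Q4) - 1 + 1) - (15 / 2 : ℂ) • 1) ^ 2 := by
  have e : (1 / 15 : ℂ) • ((32 : ℂ) • (((2 * ((7 : ℕ) : ℂ) + 1) / 8) •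
      (1 : A) * ((2 * ((7 : ℕ) : ℂ) + 1) / 8) • 1
      + ((2 * ((7 : ℕ) : ℂ) + 1) / 8) • 1 * Q4) - 1 + 1) - (15 / 2 : ℂ) • 1
      = (4 : ℂ) • Q4 := by
    simp only [smul_mul_assoc, mul_smul_comm, mul_one, one_mul]
    push_cast
    module
  rw [e, add_sub_cancel_right, add_sub_cancel_right, add_sub_cancel_right, smul_pow, smul_pow,
    smul_pow, smul_pow]
  push_cast at cs
  linear_combination (norm := module) (16 : ℂ) • cs

open Polynomial in
theorem not_injective {V : Type} [AddCommGroup V] [Module ℂ V]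
    {H Ep Em P M R : Module.End ℂ V} (h : IsPlusIrrep 7 H Ep Em P M R) (S : Finset ℂ)
    (φ : RingQuot (QuotRel 7 S (FreeAlgebra.ι ℂ : Fin 6 → FreeAlgebra ℂ (Fin 6))) →ₐ[ℂ] Module.End ℂ ((V ⊗[ℂ] V) ⊗[ℂ] V))
    (hφ : ∀ i : Fin 6, φ (RingQuot.mkAlgHom ℂ (QuotRel 7 S (FreeAlgebra.ι ℂ : Fin 6 → FreeAlgebra ℂ (Fin 6))) (FreeAlgebra.ι ℂ i))
      = genImage t3 P M R i) : ¬ Function.Injective φ := by
  intro hinj
  by_cases hS : (-16 : ℂ) ∈ S
  · obtain ⟨χ, hχ⟩ := exists_char S hS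
    set g : Fin 6 → RingQuot (QuotRel 7 S (FreeAlgebra.ι ℂ : Fin 6 → FreeAlgebra ℂ (Fin 6))) :=
      fun i => RingQuot.mkAlgHom ℂ (QuotRel 7 S (FreeAlgebra.ι ℂ : Fin 6 → FreeAlgebra ℂ (Fin 6))) (FreeAlgebra.ι ℂ i) with hg
    have hφ' : ∀ i, φ (g i) = genImage t3 P M R i := hφ
    have hχ' : ∀ i, χ (g i) = ![-2, -2, -2, 14, 14, 14] i := hχ
    have key : (g 0 - (1 / 2 : ℂ) • 1) ^ 2 + (g 1 - (1 / 2 : ℂ) • 1) ^ 2
        + (g 2 - (1 / 2 : ℂ) • 1) ^ 2 + (1 / 4 : ℂ) • 1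
        = (675 / 4 : ℂ) • 1 + ((1 / 15 : ℂ) • (g 3 + 1) - (15 / 2 : ℂ) • 1) ^ 2 := by
      apply hinj
      have hp := h.pair
      have hc := h.cas_scalar
      obtain ⟨-, ⟨rr, -, -, -, rp, rm⟩, -⟩ := h
      have cs := casimir_t3 hp rr rp rm hc
      simp only [map_add, map_pow, map_sub, map_smul, map_one, hφ', genImage, hc, t3_smul1,
        t3_smul2, t3_smul3, t3_one, Matrix.cons_val_zero, Matrix.cons_val_one, Matrix.cons_val]
      generalize cas (t3 P R 1 + t3 1 P 1) (t3 M R 1 + t3 1 M 1) (t3 R R 1) = Q12 at *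
      generalize cas (t3 1 P R + t3 1 1 P) (t3 1 M R + t3 1 1 M) (t3 1 R R) = Q23 at *
      generalize cas (t3 P R R + t3 1 1 P) (t3 M R R + t3 1 1 M) (t3 R 1 R) = Q13 at *
      generalize cas (t3 P R R + t3 1 P R + t3 1 1 P) (t3 M R R + t3 1 M R + t3 1 1 M)
        (t3 R R R) = Q4 at *
      exact final_alg Q12 Q23 Q13 Q4 cs
    have := congrArg χ key
    simp only [map_add, map_pow, map_sub, map_smul, map_one, hχ', Matrix.cons_val_zero,
      Matrix.cons_val_one, Matrix.cons_val, smul_eq_mul] at this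
    norm_num at this
  · obtain ⟨u, hu, hXu⟩ := exists_eigen h
    have hrel : QuotRel 7 S (FreeAlgebra.ι ℂ : Fin 6 → FreeAlgebra ℂ (Fin 6)) (aeval (FreeAlgebra.ι ℂ (0 : Fin 6) - FreeAlgebra.ι ℂ (3 : Fin 6))
        (∏ m ∈ S, (X - C m))) 0 := by
      unfold QuotRel ExtraRel
      iterate 5 right
      exact ⟨_, List.mem_cons_self, rfl, rfl⟩
    have h1 := congrArg φ (RingQuot.mkAlgHom_rel ℂ hrel)
    rw [map_zero, map_zero, ← aeval_algHom_apply, ← aeval_algHom_apply, map_sub, map_sub, hφ,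
      hφ] at h1
    have h2 := Module.End.aeval_apply_of_mem_apply_eq_smul (p := ∏ m ∈ S, (X - C m)) hXu
    rw [h1, LinearMap.zero_apply, eval_prod] at h2
    rcases smul_eq_zero.1 h2.symm with h3 | h3
    · obtain ⟨m, hm, h4⟩ := Finset.prod_eq_zero_iff.1 h3
      simp only [eval_sub, eval_X, eval_C, sub_eq_zero] at h4
      exact hS (h4 ▸ hm)
    · exact hu h3

end Pool.Agent.P.MP_56b3f5_al
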