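import Pool.Agent.P.MP_56b3f5_al.HW

set_option autoImplicit false
set_option linter.unusedSectionVars false
set_option linter.unusedSimpArgs false

open scoped TensorProduct

namespace Pool.Agent.P.MP_56b3f5_al

theorem Anti.comm_mul {A : Type} [Ring A] {R a b : A} (ha : Anti R a) (hb : Anti R b) :
    R * (a * b) = a * b * R := by
  unfold Anti at ha hb
  rw [← mul_assoc, ha, neg_mul, mul_assoc a R b, hb]; noncomm_ring

theorem cf_even (lam : ℂ) (i : ℕ) : cf lam (2 * i) = -(i : ℂ) / 4 := by
  induction i with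
  | zero => simp [cf]
  | succ i ih =>
    rw [show 2 * (i + 1) = 2 * i + 2 by ring, cf, ih]; push_cast; ring

theorem cf_odd (lam : ℂ) (i : ℕ) : cf lam (2 * i + 1) = lam - (i : ℂ) / 4 := by
  induction i with
  | zero => simp [cf]
  | succ i ih =>
    rw [show 2 * (i + 1) + 1 = 2 * i + 1 + 2 by ring, cf, ih]; push_cast; ring

theorem cf_ne_zero (J k : ℕ) (hk : k < 2 * J) : cf ((J : ℂ) / 4) (k + 1) ≠ 0 := by
  rcases Nat.even_or_odd' k with ⟨i, rfl | rfl⟩
  · rw [cf_odd]
    intro h
    have : (J : ℂ) = (i : ℂ) := by linear_combination 4 * h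
    have := Nat.cast_injective this
    omega
  · rw [show 2 * i + 1 + 1 = 2 * (i + 1) by ring, cf_even]
    intro h
    have : ((i + 1 : ℕ) : ℂ) = 0 := by linear_combination -4 * h
    exact Nat.cast_ne_zero.2 (Nat.succ_ne_zero i) this

theorem cf_top (J : ℕ) : cf ((J : ℂ) / 4) (2 * J + 1) = 0 := by
  rw [cf_odd]; ring

section Model
variable (J : ℕ)

noncomputable def ee (k : ℕ) : Fin (2 * J + 1) → ℂ :=
  if h : k < 2 * J + 1 then Pi.single (⟨k, h⟩ : Fin (2 * J + 1)) 1 else 0

noncomputable def mP : Module.End ℂ (Fin (2 * J + 1) → ℂ) :=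
  (Pi.basisFun ℂ (Fin (2 * J + 1))).constr ℂ fun k => cf ((J : ℂ) / 4) k • ee J (k - 1)

noncomputable def mM : Module.End ℂ (Fin (2 * J + 1) → ℂ) :=
  (Pi.basisFun ℂ (Fin (2 * J + 1))).constr ℂ fun k => ee J (k + 1)

noncomputable def mR : Module.End ℂ (Fin (2 * J + 1) → ℂ) :=
  (Pi.basisFun ℂ (Fin (2 * J + 1))).constr ℂ fun k => ((-1 : ℂ) ^ (k : ℕ)) • ee J k

theorem ee_basis (k : Fin (2 * J + 1)) : Pi.basisFun ℂ (Fin (2 * J + 1)) k = ee J k := by
  simp [ee, k.2]

theorem ee_big {k : ℕ} (h : ¬ k < 2 * J + 1) : ee J k = 0 := by simp [ee, h]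

theorem mM_ee (k : ℕ) : mM J (ee J k) = ee J (k + 1) := by
  by_cases h : k < 2 * J + 1
  · have := ee_basis J ⟨k, h⟩
    simp only at this
    rw [← this, mM, Module.Basis.constr_basis]
  · rw [ee_big J h, ee_big J (by omega), map_zero]

theorem mR_ee (k : ℕ) : mR J (ee J k) = ((-1 : ℂ) ^ k) • ee J k := by
  by_cases h : k < 2 * J + 1
  · have := ee_basis J ⟨k, h⟩
    simp only at this
    conv_lhs => rw [← this, mR, Module.Basis.constr_basis]
  · rw [ee_big J h, map_zero, smul_zero]

theorem mP_ee (k : ℕ) : mP J (ee J k) = cf ((J : ℂ) / 4) k • ee J (k - 1) := by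
  by_cases h : k < 2 * J + 1
  · have := ee_basis J ⟨k, h⟩
    simp only at this
    rw [← this, mP, Module.Basis.constr_basis]
  · rw [ee_big J h, map_zero]
    by_cases h2 : k = 2 * J + 1
    · rw [h2, cf_top, zero_smul]
    · rw [ee_big J (by omega), smul_zero]

theorem mP_ee_zero : mP J (ee J 0) = 0 := by rw [mP_ee]; simp [cf]

theorem mP_ee_succ (k : ℕ) : mP J (ee J (k + 1)) = cf ((J : ℂ) / 4) (k + 1) • ee J k := by
  rw [mP_ee]; simp

theorem end_ext {f g : Module.End ℂ (Fin (2 * J + 1) → ℂ)} (h : ∀ k : ℕ, f (ee J k) = g (ee J k)) :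
    f = g := by
  apply (Pi.basisFun ℂ (Fin (2 * J + 1))).ext
  intro k
  rw [ee_basis, h]

theorem model_pair : OspPair (mP J) (mM J) := by
  constructor
  · apply end_ext
    intro k
    simp only [LinearMap.smul_apply, LinearMap.sub_apply, Module.End.mul_apply]
    match k with
    | 0 => simp [mP_ee_zero, mM_ee, mP_ee_succ]
    | 1 =>
      simp only [mP_ee_zero, mM_ee, mP_ee_succ, map_smul, smul_zero, cf, map_zero]
      module
    | (k + 2) =>
      simp only [mM_ee, mP_ee_succ, map_smul, cf]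
      module
  · apply end_ext
    intro k
    simp only [LinearMap.smul_apply, LinearMap.sub_apply, Module.End.mul_apply]
    match k with
    | 0 =>
      simp only [mP_ee_zero, mM_ee, mP_ee_succ, map_zero, cf]
      module
    | (k + 1) =>
      simp only [mM_ee, mP_ee_succ, map_smul, cf]
      module

theorem model_RR : mR J * mR J = 1 := by
  apply end_ext
  intro k
  simp only [Module.End.mul_apply, mR_ee, map_smul, smul_smul, Module.End.one_apply, ← mul_pow]
  simp

theorem model_RP : Anti (mR J) (mP J) := by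
  apply end_ext
  intro k
  simp only [Module.End.mul_apply, LinearMap.neg_apply]
  match k with
  | 0 => simp [mR_ee, mP_ee_zero]
  | (k + 1) =>
    simp only [mR_ee, mP_ee_succ, map_smul, pow_succ]
    module

theorem model_RM : Anti (mR J) (mM J) := by
  apply end_ext
  intro k
  simp only [Module.End.mul_apply, LinearMap.neg_apply, mR_ee, mM_ee, map_smul, pow_succ]
  module

theorem ee_zero_ne : ee J 0 ≠ 0 := by
  intro h
  have := congrFun h ⟨0, by omega⟩
  simp [ee] at this

theorem model_hw : IsHW (mP J) (mM J) (mR J) (ee J 0) ((J : ℂ) / 4) 1 :=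
  ⟨ee_zero_ne J, mP_ee_zero J, by rw [mM_ee, mP_ee_succ]; simp [cf], by simp [mR_ee]⟩

theorem mM_pow (k : ℕ) : (mM J ^ k) (ee J 0) = ee J k := by
  induction k with
  | zero => simp
  | succ k ih => rw [pow_succ', Module.End.mul_apply, ih, mM_ee]

theorem mP_nil : mP J ^ (2 * J + 1) = 0 := by
  apply end_ext
  intro k
  by_cases h : k < 2 * J + 1
  · rw [← mM_pow, (model_hw J).kill (model_pair J) _ _ h, LinearMap.zero_apply]
  · rw [ee_big J h, map_zero, map_zero]

theorem mP_coord (w : Fin (2 * J + 1) → ℂ) (k : ℕ) (hk : k + 1 < 2 * J + 1) :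
    mP J w ⟨k, by omega⟩ = cf ((J : ℂ) / 4) (k + 1) * w ⟨k + 1, hk⟩ := by
  have : (LinearMap.proj (⟨k, by omega⟩ : Fin (2 * J + 1)) ∘ₗ mP J : _ →ₗ[ℂ] ℂ)
      = cf ((J : ℂ) / 4) (k + 1) • LinearMap.proj (⟨k + 1, hk⟩ : Fin (2 * J + 1)) := by
    apply (Pi.basisFun ℂ (Fin (2 * J + 1))).ext
    intro i
    rw [ee_basis]
    obtain ⟨i, hi⟩ := i
    simp only [LinearMap.comp_apply, LinearMap.proj_apply, LinearMap.smul_apply, smul_eq_mul]
    match i, hi with
    | 0, hi => rw [mP_ee_zero]; simp [ee]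
    | (i + 1), hi =>
      rw [mP_ee_succ]
      have hi' : i < 2 * J + 1 := by omega
      simp only [ee, hi, hi', dif_pos, Pi.smul_apply, smul_eq_mul, Pi.single_apply, Fin.mk.injEq,
        Nat.add_right_cancel_iff]
      split_ifs with h
      · rw [h]
      · simp
  have := congrArg (fun f : (Fin (2 * J + 1) → ℂ) →ₗ[ℂ] ℂ => f w) this
  simpa using this

theorem model_irred (W : Submodule ℂ (Fin (2 * J + 1) → ℂ)) (hP : ∀ w ∈ W, mP J w ∈ W)
    (hM : ∀ w ∈ W, mM J w ∈ W) : W = ⊥ ∨ W = ⊤ := by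
  by_cases hW : W = ⊥
  · exact Or.inl hW
  right
  obtain ⟨w, hw, hw0⟩ := Submodule.exists_mem_ne_zero_of_ne_bot hW
  have hpow : ∀ n : ℕ, (mP J ^ n) w ∈ W := by
    intro n
    induction n with
    | zero => simpa using hw
    | succ n ih => rw [pow_succ', Module.End.mul_apply]; exact hP _ ih
  have hex : ∃ n : ℕ, (mP J ^ n) w = 0 := ⟨2 * J + 1, by rw [mP_nil]; rfl⟩
  classical
  have hn := Nat.find_spec hex
  obtain ⟨n, hn'⟩ : ∃ n, Nat.find hex = n + 1 := by
    refine ⟨Nat.find hex - 1, ?_⟩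
    have : Nat.find hex ≠ 0 := by
      intro h
      rw [h] at hn
      exact hw0 (by simpa using hn)
    omega
  have hz : (mP J ^ n) w ≠ 0 := Nat.find_min hex (by omega)
  rw [hn', pow_succ', Module.End.mul_apply] at hn
  set z := (mP J ^ n) w with hzdef
  have hzW : z ∈ W := hpow n
  have hz1 : z = z ⟨0, by omega⟩ • ee J 0 := by
    funext i
    obtain ⟨i, hi⟩ := i
    match i, hi with
    | 0, hi => simp [ee]
    | (i + 1), hi =>
      have := mP_coord J z i hi
      rw [hn] at this
      have h2 := (mul_eq_zero.1 this.symm).resolve_left (cf_ne_zero J i (by omega))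
      simp [ee, h2]
  have hz0 : z ⟨0, by omega⟩ ≠ 0 := by
    intro h
    rw [h, zero_smul] at hz1
    exact hz hz1
  have he0 : ee J 0 ∈ W := by
    have := W.smul_mem (z ⟨0, by omega⟩)⁻¹ hzW
    have e : (z ⟨0, by omega⟩)⁻¹ • z = ee J 0 := by
      conv_lhs => rw [hz1]
      rw [smul_smul]
      have : (z ⟨0, by omega⟩ • ee J 0) ⟨0, by omega⟩ = z ⟨0, by omega⟩ := by rw [← hz1]
      rw [this, inv_mul_cancel₀ hz0, one_smul]
    rwa [e] at this
  have hek : ∀ k, ee J k ∈ W := by
    intro k
    induction k with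
    | zero => exact he0
    | succ k ih => rw [← mM_ee]; exact hM _ ih
  rw [eq_top_iff, ← (Pi.basisFun ℂ (Fin (2 * J + 1))).span_eq, Submodule.span_le]
  rintro _ ⟨k, rfl⟩
  rw [ee_basis]
  exact hek k

theorem model_exists : ∃ H Ep Em Fp Fm R : Module.End ℂ (Fin (2 * J + 1) → ℂ),
    IsPlusIrrep J H Ep Em Fp Fm R := by
  obtain ⟨a, b⟩ := model_pair J
  have rr := model_RR J
  have rp := model_RP J
  have rm := model_RM J
  have hw := model_hw J
  refine ⟨(2 : ℂ) • (mP J * mM J + mM J * mP J), (4 : ℂ) • (mP J * mP J),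
    (-4 : ℂ) • (mM J * mM J), mP J, mM J, mR J, ?_, ?_, by simp, ?_, ?_⟩
  · generalize mP J = P at *
    generalize mM J = M at *
    refine ⟨?_, ?_, ?_, ?_, ?_, ?_, ?_, ?_, ?_, ?_⟩
    · linear_combination (norm := (simp only [mul_add, add_mul, sub_mul, mul_sub, smul_mul_assoc,
        mul_smul_comm, mul_assoc, mul_one, one_mul, smul_sub, smul_add]; module))
        (2 : ℂ) • (P * a) + (2 : ℂ) • (a * P)
    · linear_combination (norm := (simp only [mul_add, add_mul, sub_mul, mul_sub, smul_mul_assoc,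
        mul_smul_comm, mul_assoc, mul_one, one_mul, smul_sub, smul_add]; module))
        (2 : ℂ) • (M * b) + (2 : ℂ) • (b * M)
    · linear_combination (norm := (simp only [mul_add, add_mul, sub_mul, mul_sub, smul_mul_assoc,
        mul_smul_comm, mul_assoc, mul_one, one_mul, smul_sub, smul_add]; module))
        (4 : ℂ) • (M * a) + (4 : ℂ) • (a * M)
    · linear_combination (norm := (simp only [mul_add, add_mul, sub_mul, mul_sub, smul_mul_assoc,
        mul_smul_comm, mul_assoc, mul_one, one_mul, smul_sub, smul_add]; module))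
        (1 / 2 : ℂ) • a
    · linear_combination (norm := (simp only [mul_add, add_mul, sub_mul, mul_sub, smul_mul_assoc,
        mul_smul_comm, mul_assoc, mul_one, one_mul, smul_sub, smul_add]; module))
        (-1 / 2 : ℂ) • b
    · module
    · linear_combination (norm := (simp only [mul_add, add_mul, sub_mul, mul_sub, smul_mul_assoc,
        mul_smul_comm, mul_assoc, mul_one, one_mul, smul_sub, smul_add]; module))
        (-1 : ℂ) • a
    · linear_combination (norm := (simp only [mul_add, add_mul, sub_mul, mul_sub, smul_mul_assoc,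
        mul_smul_comm, mul_assoc, mul_one, one_mul, smul_sub, smul_add]; module))
        (-1 : ℂ) • b
    · module
    · module
  · generalize mP J = P at *
    generalize mM J = M at *
    generalize mR J = R at *
    have e1 := rp.comm_mul rm
    have e2 := rm.comm_mul rp
    have e3 := rp.comm_mul rp
    have e4 := rm.comm_mul rm
    refine ⟨rr, ?_, ?_, ?_, rp, rm⟩
    · simp only [mul_smul_comm, smul_mul_assoc, mul_add, add_mul, e1, e2]
    · simp only [mul_smul_comm, smul_mul_assoc, e3]
    · simp only [mul_smul_comm, smul_mul_assoc, e4]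
  · intro W hW
    exact model_irred J W (hW _ (by simp)) (hW _ (by simp))
  · refine ⟨ee J 0, hw.ne, by simpa using hw.hR, ?_, hw.hP, ?_⟩
    · simp only [LinearMap.smul_apply, LinearMap.add_apply, Module.End.mul_apply, hw.hP, hw.hPM,
        map_zero]
      module
    · simp [hw.hP]

end Model

end Pool.Agent.P.MP_56b3f5_al
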